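import Pool.Agent.Run7.h437.LJ.Min

/-! Project LJ, part FRAME: orthonormal frames of the conjugated algebras converge along a
subsequence. -/

set_option autoImplicit false

namespace Pool.Agent.Run7.h437.LJ

open Topology Filter Pool.Agent.N696.LI Pool.Agent.Run7.h314.LJ

/-- matrices as vectors of a Euclidean space -/
noncomputable def vecL (m : ℕ) : Mat m →ₗ[ℝ] EuclideanSpace ℝ (Fin m × Fin m) where
  toFun A := WithLp.toLp 2 (fun p : Fin m × Fin m => A p.1 p.2)
  map_add' A B := by
    ext p
    simp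
  map_smul' c A := by
    ext p
    simp

lemma vecL_apply {m : ℕ} (A : Mat m) (p : Fin m × Fin m) : vecL m A p = A p.1 p.2 := rfl

lemma vecL_inj (m : ℕ) : Function.Injective (vecL m) := by
  intro A B h
  ext i j
  have := congrArg (fun v : EuclideanSpace ℝ (Fin m × Fin m) => v (i, j)) h
  exact this

/-- the inverse -/
def unvec {m : ℕ} (v : EuclideanSpace ℝ (Fin m × Fin m)) : Mat m :=
  Matrix.of fun i j => v (i, j)

lemma vecL_unvec {m : ℕ} (v : EuclideanSpace ℝ (Fin m × Fin m)) : vecL m (unvec v) = v := by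
  ext p
  rfl

lemma trace_unvec {m : ℕ} (v w : EuclideanSpace ℝ (Fin m × Fin m)) :
    (unvec v * (unvec w).transpose).trace = inner ℝ v w := by
  rw [trace_mul_transpose_eq, PiLp.inner_apply, Fintype.sum_prod_type]
  refine Finset.sum_congr rfl fun a _ => Finset.sum_congr rfl fun b _ => ?_
  simp only [unvec, Matrix.of_apply, RCLike.inner_apply, conj_trivial]
  ring

/-- an orthonormal frame of the span of independent matrices -/
lemma exists_frame {m k : ℕ} (f : Fin k → Mat m) (hf : LinearIndependent ℝ f) :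
    ∃ (e : Fin k → Mat m) (q r : Mat k),
      (∀ i j, (e i * (e j).transpose).trace = if i = j then 1 else 0) ∧
      (∀ l, e l = ∑ j, q j l • f j) ∧ (∀ l, f l = ∑ j, r j l • e j) ∧ q * r = 1 := by
  obtain ⟨F, hF⟩ : ∃ F : Fin k → EuclideanSpace ℝ (Fin m × Fin m), F = fun l => vecL m (f l) :=
    ⟨_, rfl⟩
  have hFl : LinearIndependent ℝ F := by
    rw [hF]
    exact hf.map' (vecL m) (LinearMap.ker_eq_bot.2 (vecL_inj m))
  obtain ⟨E, hE⟩ : ∃ E : Fin k → EuclideanSpace ℝ (Fin m × Fin m),
      E = InnerProductSpace.gramSchmidtNormed ℝ F := ⟨_, rfl⟩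
  have hEo : Orthonormal ℝ E := by
    rw [hE]
    exact InnerProductSpace.gramSchmidtNormed_orthonormal hFl
  have hspan : Submodule.span ℝ (Set.range E) = Submodule.span ℝ (Set.range F) := by
    rw [hE, InnerProductSpace.span_gramSchmidtNormed_range, InnerProductSpace.span_gramSchmidt]
  have h1 : ∀ l, ∃ c : Fin k → ℝ, ∑ j, c j • F j = E l := fun l => by
    rw [← Submodule.mem_span_range_iff_exists_fun, ← hspan]
    exact Submodule.subset_span ⟨l, rfl⟩
  have h2 : ∀ l, ∃ c : Fin k → ℝ, ∑ j, c j • E j = F l := fun l => by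
    rw [← Submodule.mem_span_range_iff_exists_fun, hspan]
    exact Submodule.subset_span ⟨l, rfl⟩
  choose q hq using h1
  choose r hr using h2
  refine ⟨fun l => unvec (E l), Matrix.of fun j l => q l j, Matrix.of fun j l => r l j,
    fun i j => ?_, fun l => ?_, fun l => ?_, ?_⟩
  · rw [trace_unvec]
    exact orthonormal_iff_ite.1 hEo i j
  · apply vecL_inj
    rw [vecL_unvec, map_sum, ← hq l]
    refine Finset.sum_congr rfl fun j _ => ?_
    rw [map_smul, hF]
    rfl
  · apply vecL_inj
    rw [map_sum]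
    have h3 : vecL m (f l) = F l := by rw [hF]
    rw [h3, ← hr l]
    refine Finset.sum_congr rfl fun j _ => ?_
    rw [map_smul, vecL_unvec]
    rfl
  · have h3 : ∀ l, ∑ i, ((Matrix.of fun j l => q l j) * (Matrix.of fun j l => r l j) : Mat k) i l
        • F i = ∑ i, (1 : Mat k) i l • F i := by
      intro l
      have h4 : ∑ i, (1 : Mat k) i l • F i = F l := by
        simp [Matrix.one_apply]
      rw [h4]
      conv_rhs => rw [← hr l]
      have h5 : ∀ j, r l j • E j = ∑ i, (q j i * r l j) • F i := by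
        intro j
        rw [← hq j, Finset.smul_sum]
        refine Finset.sum_congr rfl fun i _ => ?_
        rw [smul_smul, mul_comm]
      rw [Finset.sum_congr rfl fun j _ => h5 j, Finset.sum_comm]
      refine Finset.sum_congr rfl fun i _ => ?_
      rw [← Finset.sum_smul, Matrix.mul_apply]
      rfl
    ext i l
    have h4 : ∑ i, ((((Matrix.of fun j l => q l j) * (Matrix.of fun j l => r l j) : Mat k) i l)
        - (1 : Mat k) i l) • F i = 0 := by
      have h5 := h3 l
      rw [← sub_eq_zero, ← Finset.sum_sub_distrib] at h5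
      rw [← h5]
      refine Finset.sum_congr rfl fun i _ => ?_
      rw [sub_smul]
    exact sub_eq_zero.1 (Fintype.linearIndependent_iff.1 hFl _ h4 i)

lemma tendsto_det {k : ℕ} {P : ℕ → Mat k} {Q : Mat k} (h : Tendsto P atTop (𝓝 Q)) :
    Tendsto (fun t => (P t).det) atTop (𝓝 Q.det) := by
  have hc : Continuous (fun A : Mat k => A.det) := Continuous.matrix_det continuous_id
  exact (hc.tendsto Q).comp h

lemma tendsto_mm {k : ℕ} {P Q : ℕ → Mat k} {P₀ Q₀ : Mat k} (hP : Tendsto P atTop (𝓝 P₀))
    (hQ : Tendsto Q atTop (𝓝 Q₀)) : Tendsto (fun t => P t * Q t) atTop (𝓝 (P₀ * Q₀)) := by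
  have hc : Continuous (fun z : Mat k × Mat k => z.1 * z.2) :=
    continuous_fst.matrix_mul continuous_snd
  exact (hc.tendsto (P₀, Q₀)).comp (hP.prodMk_nhds hQ)

lemma tendsto_tr {k : ℕ} {P Q : ℕ → Mat k} {P₀ Q₀ : Mat k} (hP : Tendsto P atTop (𝓝 P₀))
    (hQ : Tendsto Q atTop (𝓝 Q₀)) :
    Tendsto (fun t => (P t * (Q t).transpose).trace) atTop (𝓝 ((P₀ * Q₀.transpose).trace)) := by
  simp only [trace_mul_transpose_eq]
  refine tendsto_finsetSum _ fun a _ => tendsto_finsetSum _ fun b _ => ?_
  exact (tendsto_pi_nhds.1 (tendsto_pi_nhds.1 hP a) b).mul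
    (tendsto_pi_nhds.1 (tendsto_pi_nhds.1 hQ a) b)

lemma tendsto_mat {k : ℕ} {P : ℕ → Mat k} {Q : Mat k}
    (h : ∀ i j, Tendsto (fun t => P t i j) atTop (𝓝 (Q i j))) : Tendsto P atTop (𝓝 Q) :=
  tendsto_pi_nhds.2 fun i => tendsto_pi_nhds.2 fun j => h i j

/-- expansion in an orthonormal frame -/
lemma expand {m k : ℕ} {e : Fin k → Mat m}
    (he : ∀ i j, (e i * (e j).transpose).trace = if i = j then 1 else 0) {M : Mat m}
    {x : Fin k → ℝ} (hM : M = ∑ j, x j • e j) (l : Fin k) : (M * (e l).transpose).trace = x l := by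
  rw [hM, Finset.sum_mul, Matrix.trace_sum]
  simp only [Matrix.smul_mul, Matrix.trace_smul, he, smul_eq_mul]
  simp

theorem frame : S_frame := by
  intro m k b g φ hb h1 _ hlim
  set A := Submodule.span ℝ (Set.range b) with hA
  have hbA : ∀ l, b l ∈ A := fun l => Submodule.subset_span ⟨l, rfl⟩
  -- conjugated bases
  have hfl : ∀ t, LinearIndependent ℝ
      (fun l => (g t : Mat m) * b l * (((g t)⁻¹ : (Mat m)ˣ) : Mat m)) := by
    intro t
    rw [Fintype.linearIndependent_iff] at hb ⊢
    intro x hx l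
    apply hb x _ l
    have h3 : (g t : Mat m) * (∑ j, x j • b j) * (((g t)⁻¹ : (Mat m)ˣ) : Mat m) = 0 := by
      rw [← hx, Finset.mul_sum, Finset.sum_mul]
      refine Finset.sum_congr rfl fun j _ => ?_
      rw [Matrix.mul_smul, Matrix.smul_mul]
    have h4 : (∑ j, x j • b j) = (((g t)⁻¹ : (Mat m)ˣ) : Mat m) *
        ((g t : Mat m) * (∑ j, x j • b j) * (((g t)⁻¹ : (Mat m)ˣ) : Mat m)) * (g t : Mat m) := by
      rw [← Matrix.mul_assoc, ← Matrix.mul_assoc, Units.inv_mul, Matrix.one_mul, Matrix.mul_assoc,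
        Units.inv_mul, Matrix.mul_one]
    rw [h4, h3, Matrix.mul_zero, Matrix.zero_mul]
  choose e q r he hq hr hqr using fun t => exists_frame _ (hfl t)
  obtain ⟨B, s, hs, hB⟩ := exists_subseq e 1 (fun t i a c => by
    have h3 := he t i i
    rw [if_pos rfl, trace_mul_transpose_eq] at h3
    have h4 : (e t i a c) ^ 2 ≤ 1 := by
      calc (e t i a c) ^ 2 = e t i a c * e t i a c := sq _
        _ ≤ ∑ c, e t i a c * e t i a c :=
            Finset.single_le_sum (f := fun c => e t i a c * e t i a c)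
              (fun _ _ => mul_self_nonneg _) (Finset.mem_univ c)
        _ ≤ ∑ a, ∑ c, e t i a c * e t i a c :=
            Finset.single_le_sum (f := fun a => ∑ c, e t i a c * e t i a c)
              (fun _ _ => Finset.sum_nonneg fun _ _ => mul_self_nonneg _) (Finset.mem_univ a)
        _ = 1 := h3
    exact abs_le_one_iff_mul_self_le_one.2 (by rw [← sq]; exact h4))
  -- the frames of `A`
  have hC : ∀ t l, (g t : Mat m) * (∑ j, q t j l • b j) * (((g t)⁻¹ : (Mat m)ˣ) : Mat m) = e t l := by
    intro t l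
    rw [hq t l, Finset.mul_sum, Finset.sum_mul]
    refine Finset.sum_congr rfl fun j _ => ?_
    rw [Matrix.mul_smul, Matrix.smul_mul]
  -- traces converge
  have htr : ∀ (P : ℕ → Mat m) (Q : Mat m), Tendsto P atTop (𝓝 Q) → ∀ j,
      Tendsto (fun t => (P t * (e (s t) j).transpose).trace) atTop
        (𝓝 ((Q * (B j).transpose).trace)) := by
    intro P Q hPQ j
    exact tendsto_tr hPQ (hB j)
  -- limits of vectors in the span
  have hspan : ∀ (P : ℕ → Mat m) (Q : Mat m), Tendsto P atTop (𝓝 Q) →
      (∀ t, ∃ x : Fin k → ℝ, P t = ∑ j, x j • e (s t) j) →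
      Q = ∑ j, ((Q * (B j).transpose).trace) • B j := by
    intro P Q hPQ hP
    have h3 : ∀ t, P t = ∑ j, ((P t * (e (s t) j).transpose).trace) • e (s t) j := by
      intro t
      obtain ⟨x, hx⟩ := hP t
      conv_lhs => rw [hx]
      refine Finset.sum_congr rfl fun j _ => ?_
      rw [expand (he (s t)) hx j]
    have h4 : Tendsto P atTop (𝓝 (∑ j, ((Q * (B j).transpose).trace) • B j)) := by
      have h5 : P = fun t => ∑ j, ((P t * (e (s t) j).transpose).trace) • e (s t) j := funext h3
      rw [h5]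
      refine tendsto_finsetSum _ fun j _ => ?_
      exact (htr P Q hPQ j).smul (hB j)
    exact tendsto_nhds_unique hPQ h4
  refine ⟨B, s, fun t l => ∑ j, q (s t) j l • b j, hs.tendsto_atTop, fun t l => ?_, fun l => ?_,
    fun i j => ?_, ?_, fun M hM c hc => ?_⟩
  · exact Submodule.sum_mem _ fun j _ => Submodule.smul_mem _ _ (hbA j)
  · have h3 : (fun t => (g (s t) : Mat m) * (∑ j, q (s t) j l • b j) *
        (((g (s t))⁻¹ : (Mat m)ˣ) : Mat m)) = fun t => e (s t) l := funext fun t => hC (s t) l
    rw [h3]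
    exact hB l
  · have h3 := htr (fun t => e (s t) i) (B i) (hB i) j
    have h4 : (fun t => (e (s t) i * (e (s t) j).transpose).trace) =
        fun _ : ℕ => (if i = j then (1:ℝ) else 0) := funext fun t => he (s t) i j
    rw [h4] at h3
    exact tendsto_nhds_unique h3 tendsto_const_nhds
  · have h3 := hspan (fun _ => (1 : Mat m)) 1 tendsto_const_nhds (fun t => by
      obtain ⟨x, hx⟩ := (Submodule.mem_span_range_iff_exists_fun ℝ).1 h1
      refine ⟨fun i => ∑ j, r (s t) i j * x j, ?_⟩
      have h4 : (1 : Mat m) = (g (s t) : Mat m) * (∑ j, x j • b j) *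
          (((g (s t))⁻¹ : (Mat m)ˣ) : Mat m) := by
        rw [hx, Matrix.mul_one, Units.mul_inv]
      rw [h4, Finset.mul_sum, Finset.sum_mul]
      have h5 : ∀ j, (g (s t) : Mat m) * x j • b j * (((g (s t))⁻¹ : (Mat m)ˣ) : Mat m) =
          ∑ i, (r (s t) i j * x j) • e (s t) i := by
        intro j
        rw [Matrix.mul_smul, Matrix.smul_mul, hr (s t) j, Finset.smul_sum]
        refine Finset.sum_congr rfl fun i _ => ?_
        rw [smul_smul, mul_comm]
      rw [Finset.sum_congr rfl fun j _ => h5 j, Finset.sum_comm]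
      refine Finset.sum_congr rfl fun i _ => ?_
      rw [Finset.sum_smul])
    rw [h3]
    exact Submodule.sum_mem _ fun j _ => Submodule.smul_mem _ _ (Submodule.subset_span ⟨j, rfl⟩)
  · -- the action of `M`
    have hMt : ∀ t l, ((g (s t) : Mat m) * M * (((g (s t))⁻¹ : (Mat m)ˣ) : Mat m)) * e (s t) l =
        ∑ i, (r (s t) * c * q (s t)) i l • e (s t) i := by
      intro t l
      obtain ⟨G, hG⟩ : ∃ G : Mat m, G = (g (s t) : Mat m) := ⟨_, rfl⟩
      obtain ⟨G', hG'⟩ : ∃ G' : Mat m, G' = (((g (s t))⁻¹ : (Mat m)ˣ) : Mat m) := ⟨_, rfl⟩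
      have hGG : G' * G = 1 := by rw [hG, hG', Units.inv_mul]
      have hf : ∀ j, G * b j * G' = ∑ i, r (s t) i j • e (s t) i := by
        intro j
        rw [hG, hG']
        exact hr (s t) j
      have h3 : G * M * G' * e (s t) l = G * (M * ∑ j, q (s t) j l • b j) * G' := by
        rw [← hC (s t) l, ← hG, ← hG']
        simp only [Matrix.mul_assoc]
        rw [← Matrix.mul_assoc G' G, hGG, Matrix.one_mul]
      rw [← hG, ← hG', h3]
      have h4 : M * ∑ j, q (s t) j l • b j = ∑ i, (c * q (s t)) i l • b i := by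
        rw [Finset.mul_sum]
        have h5 : ∀ j, M * q (s t) j l • b j = ∑ i, (c i j * q (s t) j l) • b i := by
          intro j
          rw [Matrix.mul_smul, hc j, Finset.smul_sum]
          refine Finset.sum_congr rfl fun i _ => ?_
          rw [smul_smul, mul_comm]
        rw [Finset.sum_congr rfl fun j _ => h5 j, Finset.sum_comm]
        refine Finset.sum_congr rfl fun i _ => ?_
        rw [← Finset.sum_smul, Matrix.mul_apply]
      rw [h4, Finset.mul_sum, Finset.sum_mul]
      have h6 : ∀ j, G * (c * q (s t)) j l • b j * G' =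
          ∑ i, (r (s t) i j * (c * q (s t)) j l) • e (s t) i := by
        intro j
        rw [Matrix.mul_smul, Matrix.smul_mul, hf j, Finset.smul_sum]
        refine Finset.sum_congr rfl fun i _ => ?_
        rw [smul_smul, mul_comm]
      rw [Finset.sum_congr rfl fun j _ => h6 j, Finset.sum_comm]
      refine Finset.sum_congr rfl fun i _ => ?_
      rw [← Finset.sum_smul, Matrix.mul_assoc, Matrix.mul_apply]
    have hPl : ∀ l, Tendsto (fun t => ((g (s t) : Mat m) * M *
        (((g (s t))⁻¹ : (Mat m)ˣ) : Mat m)) * e (s t) l) atTop (𝓝 (φ M * B l)) := by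
      intro l
      have h3 : Tendsto (fun t => (g (s t) : Mat m) * M * (((g (s t))⁻¹ : (Mat m)ˣ) : Mat m))
          atTop (𝓝 (φ M)) := (hlim M hM).comp hs.tendsto_atTop
      exact tendsto_mm h3 (hB l)
    obtain ⟨a, ha⟩ : ∃ a : Mat k, ∀ j l, a j l = ((φ M * B l) * (B j).transpose).trace :=
      ⟨Matrix.of fun j l => ((φ M * B l) * (B j).transpose).trace, fun j l => rfl⟩
    refine ⟨a, ?_, fun l => ?_⟩
    · have h3 : Tendsto (fun t => (r (s t) * c * q (s t) : Mat k)) atTop (𝓝 a) := by
        refine tendsto_mat fun j l => ?_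
        have h4 := htr _ _ (hPl l) j
        rw [← ha j l] at h4
        have h5 : (fun t => ((g (s t) : Mat m) * M * (((g (s t))⁻¹ : (Mat m)ˣ) : Mat m)
            * e (s t) l * (e (s t) j).transpose).trace) =
            fun t => (r (s t) * c * q (s t)) j l := by
          funext t
          exact expand (x := fun i => (r (s t) * c * q (s t)) i l) (he (s t)) (hMt t l) j
        rw [h5] at h4
        exact h4
      have h4 := tendsto_det h3
      have h5 : (fun t => (r (s t) * c * q (s t) : Mat k).det) = fun _ => c.det := by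
        funext t
        rw [Matrix.det_mul, Matrix.det_mul]
        have h6 : (q (s t)).det * (r (s t)).det = 1 := by
          rw [← Matrix.det_mul, hqr, Matrix.det_one]
        calc (r (s t)).det * c.det * (q (s t)).det =
              ((q (s t)).det * (r (s t)).det) * c.det := by ring
          _ = c.det := by rw [h6, one_mul]
      rw [h5] at h4
      exact (tendsto_nhds_unique h4 tendsto_const_nhds)
    · have h3 := hspan _ _ (hPl l) fun t => ⟨_, hMt t l⟩
      refine h3.trans (Finset.sum_congr rfl fun j _ => ?_)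
      rw [ha j l]

end Pool.Agent.Run7.h437.LJ
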