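import Pool.Agent.Run7.h314.LJ.Iface

/-! Project LJ, part MIN: a minimising sequence of the sum of the squared norms of the conjugates
has a harmonic limit. -/

set_option autoImplicit false

namespace Pool.Agent.Run7.h437.LJ

open Topology Filter Pool.Agent.N696.LI Pool.Agent.Run7.h314.LJ

variable {m n : ℕ}

/-- the sum of the squared Frobenius norms -/
def FF (Y : Fin n → Mat m) : ℝ := ∑ i, (Y i * (Y i).transpose).trace

lemma trace_mul_transpose_eq (A B : Mat m) :
    (A * B.transpose).trace = ∑ a, ∑ b, A a b * B a b := by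
  simp [Matrix.trace, Matrix.mul_apply, Matrix.diag]

lemma FF_eq (Y : Fin n → Mat m) : FF Y = ∑ i, ∑ a, ∑ b, (Y i a b) ^ 2 := by
  unfold FF
  refine Finset.sum_congr rfl fun i _ => ?_
  rw [trace_mul_transpose_eq]
  refine Finset.sum_congr rfl fun a _ => Finset.sum_congr rfl fun b _ => ?_
  ring

lemma FF_nonneg (Y : Fin n → Mat m) : 0 ≤ FF Y := by
  rw [FF_eq]
  positivity

lemma entry_sq_le (Y : Fin n → Mat m) (i : Fin n) (a b : Fin m) : (Y i a b) ^ 2 ≤ FF Y := by
  rw [FF_eq]
  calc (Y i a b) ^ 2 ≤ ∑ b, (Y i a b) ^ 2 :=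
        Finset.single_le_sum (f := fun b => (Y i a b) ^ 2) (fun _ _ => sq_nonneg _)
          (Finset.mem_univ b)
    _ ≤ ∑ a, ∑ b, (Y i a b) ^ 2 :=
        Finset.single_le_sum (f := fun a => ∑ b, (Y i a b) ^ 2)
          (fun _ _ => Finset.sum_nonneg fun _ _ => sq_nonneg _) (Finset.mem_univ a)
    _ ≤ ∑ i, ∑ a, ∑ b, (Y i a b) ^ 2 :=
        Finset.single_le_sum (f := fun i => ∑ a, ∑ b, (Y i a b) ^ 2)
          (fun _ _ => Finset.sum_nonneg fun _ _ => Finset.sum_nonneg fun _ _ => sq_nonneg _)
          (Finset.mem_univ i)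

lemma continuous_FF : Continuous (FF : (Fin n → Mat m) → ℝ) := by
  unfold FF
  refine continuous_finsetSum _ fun i _ => ?_
  exact ((continuous_apply i).matrix_mul (continuous_apply i).matrix_transpose).matrix_trace

/-- the commutator with the trace form -/
lemma trace_comm (Z N : Mat m) :
    ((Z * N - N * Z) * N.transpose).trace = (Z * (N * N.transpose - N.transpose * N)).trace := by
  rw [Matrix.sub_mul, Matrix.trace_sub, Matrix.mul_sub, Matrix.trace_sub]
  congr 1
  · rw [Matrix.mul_assoc]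
  · rw [Matrix.mul_assoc, Matrix.trace_mul_comm N, Matrix.mul_assoc]

lemma exists_subseq (Y : ℕ → Fin n → Mat m) (R : ℝ) (hY : ∀ t i a b, |Y t i a b| ≤ R) :
    ∃ (N : Fin n → Mat m) (s : ℕ → ℕ), StrictMono s ∧
      ∀ i, Tendsto (fun t => Y (s t) i) atTop (𝓝 (N i)) := by
  obtain ⟨N, -, s, hs, hN⟩ := (isCompact_univ_pi (X := fun _ : Fin n => Fin m → Fin m → ℝ)
    (s := fun _ => Set.pi Set.univ fun _ => Set.pi Set.univ fun _ => Set.Icc (-R) R)
    (fun _ => isCompact_univ_pi fun _ => isCompact_univ_pi fun _ => isCompact_Icc)).tendsto_subseq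
    (x := fun t i a b => Y t i a b) (fun t => by
      intro i _ a _ b _
      exact abs_le.1 (hY t i a b))
  refine ⟨fun i => Matrix.of (N i), s, hs, fun i => ?_⟩
  exact (tendsto_pi_nhds.1 hN) i

theorem min : S_min := by
  intro m n X
  -- the infimum
  set f : (Mat m)ˣ → ℝ := fun g => FF (fun i => (g : Mat m) * X i * (((g)⁻¹ : (Mat m)ˣ) : Mat m))
    with hf
  have hbdd : BddBelow (Set.range f) := ⟨0, by
    rintro _ ⟨g, rfl⟩
    exact FF_nonneg _⟩
  set I : ℝ := sInf (Set.range f) with hI
  have hIle : ∀ g, I ≤ f g := fun g => csInf_le hbdd ⟨g, rfl⟩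
  have hex : ∀ t : ℕ, ∃ g : (Mat m)ˣ, f g < I + 1 / ((t : ℝ) + 1) := by
    intro t
    obtain ⟨_, ⟨g, rfl⟩, hg⟩ := exists_lt_of_csInf_lt (Set.range_nonempty f)
      (lt_add_of_pos_right I (show (0 : ℝ) < 1 / ((t : ℝ) + 1) by positivity))
    exact ⟨g, hg⟩
  choose g hg using hex
  set Y : ℕ → Fin n → Mat m :=
    fun t i => (g t : Mat m) * X i * (((g t)⁻¹ : (Mat m)ˣ) : Mat m) with hY
  obtain ⟨N, s, hs, hN⟩ := exists_subseq Y (I + 2) (fun t i a b => by
    have h1 := entry_sq_le (Y t) i a b
    have h2 : FF (Y t) < I + 1 := (hg t).trans_le (by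
      have : 1 / ((t : ℝ) + 1) ≤ 1 := by
        rw [div_le_one (by positivity)]
        linarith [Nat.cast_nonneg (α := ℝ) t]
      linarith)
    have h3 : 0 ≤ I := le_csInf (Set.range_nonempty f) (by
      rintro _ ⟨g, rfl⟩
      exact FF_nonneg _)
    apply abs_le_of_sq_le_sq _ (by linarith)
    nlinarith)
  refine ⟨fun t => g (s t), N, ?_, hN⟩
  have hNpi : Tendsto (fun t => Y (s t)) atTop (𝓝 N) := tendsto_pi_nhds.2 hN
  -- the value at the limit
  have hFN : FF N ≤ I := by
    have h1 : Tendsto (fun t => FF (Y (s t))) atTop (𝓝 (FF N)) :=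
      (continuous_FF.tendsto N).comp hNpi
    have h2 : Tendsto (fun t : ℕ => I + 1 / (((s t : ℕ) : ℝ) + 1)) atTop (𝓝 (I + 0)) :=
      (tendsto_const_nhds).add (tendsto_one_div_add_atTop_nhds_zero_nat.comp hs.tendsto_atTop)
    rw [add_zero] at h2
    exact le_of_tendsto_of_tendsto' h1 h2 fun t => (hg (s t)).le
  -- conjugates of the limit
  have hconj : ∀ u : (Mat m)ˣ, I ≤ FF (fun i => (u : Mat m) * N i * ((u⁻¹ : (Mat m)ˣ) : Mat m)) := by
    intro u
    have hc : Continuous (fun Z : Fin n → Mat m =>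
        FF (fun i => (u : Mat m) * Z i * ((u⁻¹ : (Mat m)ˣ) : Mat m))) := by
      refine continuous_FF.comp (continuous_pi fun i => ?_)
      exact (continuous_const.matrix_mul (continuous_apply i)).matrix_mul continuous_const
    have h1 := (hc.tendsto N).comp hNpi
    refine ge_of_tendsto' h1 fun t => ?_
    have h2 := hIle (u * g (s t))
    have h3 : f (u * g (s t)) =
        FF (fun i => (u : Mat m) * Y (s t) i * ((u⁻¹ : (Mat m)ˣ) : Mat m)) := by
      rw [hf]
      simp only [hY, mul_inv_rev, Units.val_mul, Matrix.mul_assoc]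
    rw [h3] at h2
    exact h2
  -- the variation
  obtain ⟨D, hD⟩ : ∃ D : Mat m, D = ∑ i, (N i * (N i).transpose - (N i).transpose * N i) := ⟨_, rfl⟩
  have hDT : D.transpose = D := by
    rw [hD, Matrix.transpose_sum]
    refine Finset.sum_congr rfl fun i _ => ?_
    rw [Matrix.transpose_sub, Matrix.transpose_mul, Matrix.transpose_mul,
      Matrix.transpose_transpose]
  set U : ℝ → Mat m := fun r => 1 + r • (-D) with hU
  have hUc : Continuous U := by
    rw [hU]
    exact continuous_const.add (continuous_id.smul continuous_const)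
  have hU0 : U 0 = 1 := by simp [hU]
  have hdet : Tendsto (fun r => (U r).det) (𝓝 0) (𝓝 1) := by
    have := (hUc.matrix_det).tendsto 0
    rwa [hU0, Matrix.det_one] at this
  have hdet0 : ∀ᶠ r in 𝓝 (0:ℝ), (U r).det ≠ 0 := hdet.eventually_ne one_ne_zero
  set V : ℝ → Mat m := fun r => ((U r).det)⁻¹ • (U r).adjugate with hV
  have hVt : Tendsto V (𝓝 0) (𝓝 1) := by
    have h1 : Tendsto (fun r => ((U r).det)⁻¹) (𝓝 0) (𝓝 1) := by
      have := hdet.inv₀ one_ne_zero
      rwa [inv_one] at this
    have h2 := (hUc.matrix_adjugate).tendsto 0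
    rw [hU0, Matrix.adjugate_one] at h2
    have := h1.smul h2
    rwa [one_smul] at this
  have hUV : ∀ r, (U r).det ≠ 0 → U r * V r = 1 := by
    intro r hr
    rw [hV]
    simp only
    rw [Matrix.mul_smul, Matrix.mul_adjugate, smul_smul, inv_mul_cancel₀ hr, one_smul]
  have hVU : ∀ r, (U r).det ≠ 0 → V r * U r = 1 := by
    intro r hr
    rw [hV]
    simp only
    rw [Matrix.smul_mul, Matrix.adjugate_mul, smul_smul, inv_mul_cancel₀ hr, one_smul]
  -- the expansion
  have hexp : ∀ r, (U r).det ≠ 0 → FF (fun i => U r * N i * V r) =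
      FF N + 2 * r * ∑ i, ((((-D) * N i - N i * (-D)) * V r) * (N i).transpose).trace +
      r ^ 2 * FF (fun i => ((-D) * N i - N i * (-D)) * V r) := by
    intro r hr
    unfold FF
    rw [Finset.mul_sum, Finset.mul_sum, ← Finset.sum_add_distrib, ← Finset.sum_add_distrib]
    refine Finset.sum_congr rfl fun i _ => ?_
    have h1 : U r * N i * V r = N i + r • (((-D) * N i - N i * (-D)) * V r) := by
      have h2 : U r * N i = N i * U r + r • ((-D) * N i - N i * (-D)) := by
        rw [hU]
        simp only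
        rw [Matrix.add_mul, Matrix.mul_add, Matrix.one_mul, Matrix.mul_one, Matrix.smul_mul,
          Matrix.mul_smul, smul_sub]
        abel
      rw [h2, Matrix.add_mul, Matrix.mul_assoc, hUV r hr, Matrix.mul_one, Matrix.smul_mul]
    beta_reduce
    rw [h1]
    obtain ⟨W, hW⟩ : ∃ W, W = ((-D) * N i - N i * (-D)) * V r := ⟨_, rfl⟩
    rw [← hW, trace_mul_transpose_eq, trace_mul_transpose_eq, trace_mul_transpose_eq,
      trace_mul_transpose_eq, Finset.mul_sum, Finset.mul_sum, ← Finset.sum_add_distrib,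
      ← Finset.sum_add_distrib]
    refine Finset.sum_congr rfl fun a _ => ?_
    rw [Finset.mul_sum, Finset.mul_sum, ← Finset.sum_add_distrib,
      ← Finset.sum_add_distrib]
    refine Finset.sum_congr rfl fun b _ => ?_
    simp only [Matrix.add_apply, Matrix.smul_apply, smul_eq_mul]
    ring
  -- the inequality
  have hineq : ∀ r, 0 < r → (U r).det ≠ 0 →
      0 ≤ 2 * ∑ i, ((((-D) * N i - N i * (-D)) * V r) * (N i).transpose).trace +
        r * FF (fun i => ((-D) * N i - N i * (-D)) * V r) := by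
    intro r hr0 hr
    have h1 := hconj ⟨U r, V r, hUV r hr, hVU r hr⟩
    have h2 : FF (fun i => U r * N i * V r) =
        FF (fun i => ((⟨U r, V r, hUV r hr, hVU r hr⟩ : (Mat m)ˣ) : Mat m) * N i *
          (((⟨U r, V r, hUV r hr, hVU r hr⟩ : (Mat m)ˣ)⁻¹ : (Mat m)ˣ) : Mat m)) := rfl
    rw [← h2, hexp r hr] at h1
    have h3 : 0 ≤ r * (2 * ∑ i, ((((-D) * N i - N i * (-D)) * V r) * (N i).transpose).trace +
        r * FF (fun i => ((-D) * N i - N i * (-D)) * V r)) := by
      nlinarith
    exact nonneg_of_mul_nonneg_right h3 hr0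
  -- the limit
  have hlim : Tendsto (fun r : ℝ =>
      2 * ∑ i, ((((-D) * N i - N i * (-D)) * V r) * (N i).transpose).trace +
        r * FF (fun i => ((-D) * N i - N i * (-D)) * V r)) (𝓝[>] 0)
      (𝓝 (2 * ∑ i, ((((-D) * N i - N i * (-D)) * 1) * (N i).transpose).trace +
        0 * FF (fun i => ((-D) * N i - N i * (-D)) * 1))) := by
    refine Tendsto.mono_left ?_ nhdsWithin_le_nhds
    refine Tendsto.add (Tendsto.const_mul _ ?_) (tendsto_id.mul ?_)
    · have hc : Continuous (fun W : Mat m =>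
          ∑ i, ((((-D) * N i - N i * (-D)) * W) * (N i).transpose).trace) := by
        refine continuous_finsetSum _ fun i _ => ?_
        exact ((continuous_const.matrix_mul continuous_id).matrix_mul
          continuous_const).matrix_trace
      exact (hc.tendsto 1).comp hVt
    · have hc : Continuous (fun W : Mat m => FF (fun i => ((-D) * N i - N i * (-D)) * W)) := by
        refine continuous_FF.comp (continuous_pi fun i => ?_)
        exact continuous_const.matrix_mul continuous_id
      exact (hc.tendsto 1).comp hVt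
  have hfin := ge_of_tendsto hlim (by
    have h1 : ∀ᶠ r in 𝓝[>] (0:ℝ), (U r).det ≠ 0 := hdet0.filter_mono nhdsWithin_le_nhds
    filter_upwards [h1, self_mem_nhdsWithin] with r hr hr0
    exact hineq r hr0 hr)
  rw [zero_mul, add_zero] at hfin
  have hval : ∑ i, ((((-D) * N i - N i * (-D)) * 1) * (N i).transpose).trace =
      - (D * D.transpose).trace := by
    have h1 : ∀ i, ((((-D) * N i - N i * (-D)) * 1) * (N i).transpose).trace =
        ((-D) * (N i * (N i).transpose - (N i).transpose * N i)).trace := by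
      intro i
      rw [Matrix.mul_one, trace_comm]
    rw [Finset.sum_congr rfl fun i _ => h1 i, ← Matrix.trace_sum, ← Finset.mul_sum, ← hD, hDT,
      Matrix.neg_mul, Matrix.trace_neg]
  rw [hval, trace_mul_transpose_eq] at hfin
  have hD0 : D = 0 := by
    have h1 : ∑ a, ∑ b, D a b * D a b = 0 := by
      apply le_antisymm (by linarith)
      exact Finset.sum_nonneg fun _ _ => Finset.sum_nonneg fun _ _ => mul_self_nonneg _
    ext a b
    have h2 := (Finset.sum_eq_zero_iff_of_nonneg (fun a _ =>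
      Finset.sum_nonneg fun b _ => mul_self_nonneg (D a b))).1 h1 a (Finset.mem_univ a)
    have h3 := (Finset.sum_eq_zero_iff_of_nonneg (fun b _ => mul_self_nonneg (D a b))).1 h2 b
      (Finset.mem_univ b)
    exact mul_self_eq_zero.1 h3
  unfold Harm
  rw [← hD, hD0]

end Pool.Agent.Run7.h437.LJ
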